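import Pool.Agent.Work.MP_bec1e1_E_helper47.Base

/-!
# Tools: many-block cuts and the adaptive union bound

* `L_flatten_split`, `L_flatten_ge`: `L xs.flatten y` is the maximum over the cuts `ys` of `y`
  (with `ys.length = xs.length`, `ys.flatten = y`) of `sumL xs ys = ∑ L (x_i) (y_i)`.
* `CW N w σ y`: sum over all cuts of `y` into `N` pieces of the product of the weights
  `w i σ_i y_i`, where the state `σ` is updated by `σ_{i+1} = st i σ_i y_i`.
* `Ex_CW_le`: its mean is at most `choose (b + N) N * A ^ N` if all one-piece means are `≤ A`.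
* `union_bad`: adaptive union bound.
-/

set_option autoImplicit false

open scoped BigOperators

namespace Pool.Agent.LCST

open Pool.Agent.LCSE

section cuts
variable {α : Type*}

/-- `∑ L (x_i) (y_i)` -/
noncomputable def sumL (xs ys : List (List α)) : ℕ := (List.zipWith (fun x y => L x y) xs ys).sum

@[simp] lemma sumL_nil (ys : List (List α)) : sumL ([] : List (List α)) ys = 0 := by simp [sumL]

@[simp] lemma sumL_nil_right (xs : List (List α)) : sumL xs ([] : List (List α)) = 0 := by
  simp [sumL]

@[simp] lemma sumL_cons (x y : List α) (xs ys : List (List α)) :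
    sumL (x :: xs) (y :: ys) = L x y + sumL xs ys := by simp [sumL]

lemma sumL_append {xs ys xs' ys' : List (List α)} (h : xs.length = ys.length) :
    sumL (xs ++ xs') (ys ++ ys') = sumL xs ys + sumL xs' ys' := by
  unfold sumL
  rw [List.zipWith_append h, List.sum_append]

/-- superadditivity for many blocks -/
lemma L_flatten_ge (xs ys : List (List α)) : sumL xs ys ≤ L xs.flatten ys.flatten := by
  induction xs generalizing ys with
  | nil => simp
  | cons x xs ih =>
    cases ys with
    | nil => simp
    | cons y ys =>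
      rw [sumL_cons, List.flatten_cons, List.flatten_cons]
      exact (Nat.add_le_add_left (ih ys) _).trans (L_append_ge _ _ _ _)

/-- the optimal common subsequence cuts `y` -/
lemma L_flatten_split (xs : List (List α)) (hxs : xs ≠ []) (y : List α) :
    ∃ ys : List (List α), ys.length = xs.length ∧ ys.flatten = y ∧
      L xs.flatten y = sumL xs ys := by
  induction xs generalizing y with
  | nil => exact absurd rfl hxs
  | cons x xs ih =>
    rcases xs with _ | ⟨x', xs⟩
    · exact ⟨[y], by simp, by simp, by simp⟩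
    · obtain ⟨g, hg, h⟩ := L_append_split x (x' :: xs).flatten y
      obtain ⟨ys, h1, h2, h3⟩ := ih (by simp) (y.drop g)
      refine ⟨y.take g :: ys, by simp [h1], ?_, ?_⟩
      · rw [List.flatten_cons, h2, List.take_append_drop]
      · rw [List.flatten_cons, h, h3, sumL_cons]

end cuts

/-! ### sums over cuts with a state -/

section CW
variable {k : ℕ} {S : Type*}

/-- sum over all cuts of `y` into `N` pieces of the product of the weights; `i` is the number of
the piece, `σ` the current state. -/
noncomputable def CW {α : Type*} (w : ℕ → S → List α → ℝ) (st : ℕ → S → List α → S) :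
    ℕ → ℕ → S → List α → ℝ
  | 0, _, _, y => if y = [] then 1 else 0
  | (N + 1), i, σ, y => ∑ g ∈ Finset.range (y.length + 1),
      w i σ (y.take g) * CW w st N (i + 1) (st i σ (y.take g)) (y.drop g)

lemma CW_nonneg {α : Type*} {w : ℕ → S → List α → ℝ} (st : ℕ → S → List α → S)
    (hw : ∀ i σ y, 0 ≤ w i σ y) (N i : ℕ) (σ : S) (y : List α) : 0 ≤ CW w st N i σ y := by
  classical
  induction N generalizing i σ y with
  | zero => unfold CW; split_ifs <;> norm_num
  | succ N ih => exact Finset.sum_nonneg fun g _ => mul_nonneg (hw _ _ _) (ih _ _ _)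

/-- product of the weights along a given cut -/
def prodW {α : Type*} (w : ℕ → S → List α → ℝ) (st : ℕ → S → List α → S) :
    ℕ → S → List (List α) → ℝ
  | _, _, [] => 1
  | i, σ, (v :: ys) => w i σ v * prodW w st (i + 1) (st i σ v) ys

@[simp] lemma prodW_nil {α : Type*} (w : ℕ → S → List α → ℝ) (st : ℕ → S → List α → S)
    (i : ℕ) (σ : S) : prodW w st i σ [] = 1 := rfl

@[simp] lemma prodW_cons {α : Type*} (w : ℕ → S → List α → ℝ) (st : ℕ → S → List α → S)
    (i : ℕ) (σ : S) (v : List α) (ys : List (List α)) :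
    prodW w st i σ (v :: ys) = w i σ v * prodW w st (i + 1) (st i σ v) ys := rfl

lemma prodW_nonneg {α : Type*} {w : ℕ → S → List α → ℝ} (st : ℕ → S → List α → S)
    (hw : ∀ i σ y, 0 ≤ w i σ y) (i : ℕ) (σ : S) (ys : List (List α)) :
    0 ≤ prodW w st i σ ys := by
  induction ys generalizing i σ with
  | nil => simp
  | cons v ys ih => exact mul_nonneg (hw _ _ _) (ih _ _)

/-- every cut contributes -/
lemma prodW_le_CW {α : Type*} {w : ℕ → S → List α → ℝ} (st : ℕ → S → List α → S)
    (hw : ∀ i σ y, 0 ≤ w i σ y) (ys : List (List α)) (i : ℕ) (σ : S) :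
    prodW w st i σ ys ≤ CW w st ys.length i σ ys.flatten := by
  induction ys generalizing i σ with
  | nil => simp [CW]
  | cons v ys ih =>
    have h1 : (w i σ ((v :: ys).flatten.take v.length)) *
        CW w st ys.length (i + 1) (st i σ ((v :: ys).flatten.take v.length))
          ((v :: ys).flatten.drop v.length) ≤ CW w st (v :: ys).length i σ (v :: ys).flatten := by
      rw [List.length_cons]
      show _ ≤ ∑ g ∈ Finset.range ((v :: ys).flatten.length + 1), _
      refine Finset.single_le_sum (f := fun g => w i σ ((v :: ys).flatten.take g) *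
        CW w st ys.length (i + 1) (st i σ ((v :: ys).flatten.take g))
          ((v :: ys).flatten.drop g)) (fun g _ => mul_nonneg (hw _ _ _) (CW_nonneg st hw _ _ _ _)) ?_
      simp
    rw [List.flatten_cons, List.take_left, List.drop_left] at h1
    rw [prodW_cons, List.flatten_cons]
    exact (mul_le_mul_of_nonneg_left (ih _ _) (hw _ _ _)).trans h1

/-- mean of the sum over cuts: the pieces are independent -/
lemma Ex_CW_succ (w : ℕ → S → List (Fin k) → ℝ) (st : ℕ → S → List (Fin k) → S)
    (N i : ℕ) (σ : S) (b : ℕ) :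
    Ex k b (CW w st (N + 1) i σ) = ∑ g ∈ Finset.range (b + 1),
      Ex k g (fun v => w i σ v * Ex k (b - g) (CW w st N (i + 1) (st i σ v))) := by
  have h1 : Ex k b (CW w st (N + 1) i σ) = Ex k b (fun y => ∑ g ∈ Finset.range (b + 1),
      w i σ (y.take g) * CW w st N (i + 1) (st i σ (y.take g)) (y.drop g)) := by
    apply Ex_congr
    intro y hy
    rw [← hy]; rfl
  rw [h1, Ex_finset_sum]
  refine Finset.sum_congr rfl fun g hg => ?_
  obtain ⟨c, rfl⟩ := Nat.exists_eq_add_of_le (Nat.lt_succ_iff.mp (Finset.mem_range.mp hg))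
  rw [Ex_append, Nat.add_sub_cancel_left]
  refine Ex_congr fun u hu => ?_
  rw [← Ex_const_mul]
  refine Ex_congr fun v _ => ?_
  rw [List.take_left' hu, List.drop_left' hu]

lemma sum_choose_aux (b N : ℕ) :
    ∑ g ∈ Finset.range (b + 1), (b - g + N).choose N = (b + N + 1).choose (N + 1) := by
  induction b with
  | zero => simp
  | succ b ih =>
    rw [Finset.sum_range_succ']
    simp only [Nat.add_sub_add_right]
    rw [ih, Nat.sub_zero]
    rw [show b + 1 + N + 1 = (b + N + 1) + 1 by ring, Nat.choose_succ_succ (b + N + 1) N]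
    rw [show b + 1 + N = b + N + 1 by ring]
    ring

/-- **adaptive union bound, exponential form**: if all one-piece means are at most `A`, the mean of
the sum over all cuts into `N` pieces is at most (number of cuts) times `A ^ N`. -/
lemma Ex_CW_le (hk : 0 < k) {w : ℕ → S → List (Fin k) → ℝ} (st : ℕ → S → List (Fin k) → S)
    (hw : ∀ i σ y, 0 ≤ w i σ y) {A : ℝ} (hA0 : 0 ≤ A)
    (hA : ∀ i σ c, Ex k c (w i σ) ≤ A) (N i : ℕ) (σ : S) (b : ℕ) :
    Ex k b (CW w st N i σ) ≤ ((b + N).choose N : ℝ) * A ^ N := by
  classical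
  induction N generalizing i σ b with
  | zero =>
    simp only [add_zero, Nat.choose_zero_right, Nat.cast_one, pow_zero, mul_one]
    refine Ex_le_const hk fun y _ => ?_
    unfold CW; split_ifs <;> norm_num
  | succ N ih =>
    rw [Ex_CW_succ]
    calc ∑ g ∈ Finset.range (b + 1),
          Ex k g (fun v => w i σ v * Ex k (b - g) (CW w st N (i + 1) (st i σ v)))
        ≤ ∑ g ∈ Finset.range (b + 1), A * (((b - g + N).choose N : ℝ) * A ^ N) := by
          refine Finset.sum_le_sum fun g _ => ?_
          calc Ex k g (fun v => w i σ v * Ex k (b - g) (CW w st N (i + 1) (st i σ v)))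
              ≤ Ex k g (fun v => w i σ v * (((b - g + N).choose N : ℝ) * A ^ N)) :=
                Ex_mono fun v _ => mul_le_mul_of_nonneg_left (ih _ _ _) (hw _ _ _)
            _ = Ex k g (w i σ) * (((b - g + N).choose N : ℝ) * A ^ N) := Ex_mul_const _ _ _
            _ ≤ _ := mul_le_mul_of_nonneg_right (hA _ _ _) (by positivity)
      _ = ((∑ g ∈ Finset.range (b + 1), (b - g + N).choose N : ℕ) : ℝ) * A ^ (N + 1) := by
          push_cast
          rw [Finset.sum_mul]
          refine Finset.sum_congr rfl fun g _ => ?_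
          ring
      _ = _ := by rw [sum_choose_aux, show b + N + 1 = b + (N + 1) by ring]

/-- number of bad pieces along a cut -/
noncomputable def cntBad {α : Type*} (bad : ℕ → S → List α → Prop) (st : ℕ → S → List α → S) :
    ℕ → S → List (List α) → ℕ
  | _, _, [] => 0
  | i, σ, (v :: ys) => (open Classical in if bad i σ v then 1 else 0) +
      cntBad bad st (i + 1) (st i σ v) ys

@[simp] lemma cntBad_nil {α : Type*} (bad : ℕ → S → List α → Prop) (st : ℕ → S → List α → S)
    (i : ℕ) (σ : S) : cntBad bad st i σ [] = 0 := rfl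

lemma cntBad_cons {α : Type*} (bad : ℕ → S → List α → Prop) (st : ℕ → S → List α → S)
    (i : ℕ) (σ : S) (v : List α) (ys : List (List α)) :
    cntBad bad st i σ (v :: ys) = (open Classical in if bad i σ v then 1 else 0) +
      cntBad bad st (i + 1) (st i σ v) ys := rfl

lemma cntBad_le_length {α : Type*} (bad : ℕ → S → List α → Prop) (st : ℕ → S → List α → S)
    (i : ℕ) (σ : S) (ys : List (List α)) : cntBad bad st i σ ys ≤ ys.length := by
  induction ys generalizing i σ with
  | nil => simp
  | cons v ys ih =>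
    rw [cntBad_cons, List.length_cons]
    have := ih (i + 1) (st i σ v)
    split_ifs <;> omega

/-- **adaptive union bound**: `bad i σ v` has probability at most `p` for every state; then the
probability that some cut of `y` into `N` pieces has at least `r` bad pieces is at most
`choose (b + N) N * 2 ^ N * p ^ r`. -/
theorem union_bad (hk : 0 < k) (bad : ℕ → S → List (Fin k) → Prop)
    (st : ℕ → S → List (Fin k) → S) {p : ℝ} (hp0 : 0 < p) (hp1 : p ≤ 1)
    (hp : ∀ i σ c, Ex k c (fun v => open Classical in if bad i σ v then (1 : ℝ) else 0) ≤ p)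
    (N r b : ℕ) (i : ℕ) (σ : S) :
    Ex k b (fun y => open Classical in if ∃ ys : List (List (Fin k)), ys.length = N ∧
      ys.flatten = y ∧ r ≤ cntBad bad st i σ ys then (1 : ℝ) else 0) ≤
      ((b + N).choose N : ℝ) * 2 ^ N * p ^ r := by
  classical
  set w : ℕ → S → List (Fin k) → ℝ := fun i σ v => if bad i σ v then p⁻¹ else 1 with hwdef
  have hp1' : 1 ≤ p⁻¹ := (one_le_inv₀ hp0).mpr hp1
  have hw : ∀ i σ v, 0 ≤ w i σ v := by
    intro i σ v
    simp only [hwdef]; split_ifs <;> positivity
  have hA : ∀ i σ c, Ex k c (w i σ) ≤ 2 := by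
    intro i σ c
    have h1 : ∀ v, w i σ v ≤ 1 + p⁻¹ * (if bad i σ v then (1 : ℝ) else 0) := by
      intro v
      simp only [hwdef]; split_ifs <;> simp
    calc Ex k c (w i σ) ≤ Ex k c (fun v => 1 + p⁻¹ * (if bad i σ v then (1 : ℝ) else 0)) :=
          Ex_mono fun v _ => h1 v
      _ = 1 + p⁻¹ * Ex k c (fun v => if bad i σ v then (1 : ℝ) else 0) := by
          rw [Ex_add, Ex_const hk, Ex_const_mul]
      _ ≤ 1 + p⁻¹ * p := by
          have := mul_le_mul_of_nonneg_left (hp i σ c) (inv_nonneg.mpr hp0.le)
          linarith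
      _ = 2 := by rw [inv_mul_cancel₀ hp0.ne']; norm_num
  have hprod : ∀ (ys : List (List (Fin k))) (i : ℕ) (σ : S),
      prodW w st i σ ys = p⁻¹ ^ cntBad bad st i σ ys := by
    intro ys
    induction ys with
    | nil => intro i σ; simp
    | cons v ys ih =>
      intro i σ
      rw [prodW_cons, cntBad_cons, ih, pow_add]
      congr 1
      simp only [hwdef]
      split_ifs <;> simp
  have h1 : ∀ y : List (Fin k), (if ∃ ys : List (List (Fin k)), ys.length = N ∧
      ys.flatten = y ∧ r ≤ cntBad bad st i σ ys then (1 : ℝ) else 0) ≤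
      p ^ r * CW w st N i σ y := by
    intro y
    split_ifs with h
    · obtain ⟨ys, rfl, rfl, h3⟩ := h
      have h4 := prodW_le_CW st hw ys i σ
      rw [hprod] at h4
      have h5 : p⁻¹ ^ r ≤ p⁻¹ ^ cntBad bad st i σ ys := pow_le_pow_right₀ hp1' h3
      calc (1 : ℝ) = p ^ r * p⁻¹ ^ r := by
            rw [← mul_pow, mul_inv_cancel₀ hp0.ne', one_pow]
        _ ≤ _ := mul_le_mul_of_nonneg_left (h5.trans h4) (by positivity)
    · exact mul_nonneg (by positivity) (CW_nonneg st hw _ _ _ _)
  calc _ ≤ Ex k b (fun y => p ^ r * CW w st N i σ y) := Ex_mono fun y _ => h1 y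
    _ = p ^ r * Ex k b (CW w st N i σ) := Ex_const_mul _ _ _
    _ ≤ p ^ r * (((b + N).choose N : ℝ) * 2 ^ N) :=
        mul_le_mul_of_nonneg_left (Ex_CW_le hk st hw (by norm_num) hA N i σ b) (by positivity)
    _ = _ := by ring

end CW

/-! ### number of cuts -/

lemma choose_le_exp (b N : ℕ) (hN : 0 < N) :
    ((b + N).choose N : ℝ) ≤ Real.exp (N * (1 + Real.log (((b : ℝ) + N) / N))) := by
  have hN' : (0 : ℝ) < N := by exact_mod_cast hN
  set x : ℝ := N / (b + N) with hx
  have hbN : (0 : ℝ) < (b : ℝ) + N := by positivity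
  have hx0 : 0 < x := by positivity
  have h1 : ((b + N).choose N : ℝ) * x ^ N ≤ (1 + x) ^ (b + N) := by
    rw [add_pow]
    have h3 := Finset.single_le_sum (f := fun m => (1 : ℝ) ^ m * x ^ (b + N - m) *
      ((b + N).choose m)) (s := Finset.range (b + N + 1)) (fun i _ => by positivity)
      (a := b) (by simp)
    calc ((b + N).choose N : ℝ) * x ^ N = 1 ^ b * x ^ (b + N - b) * ((b + N).choose b) := by
          rw [one_pow, one_mul, show b + N - b = N by omega, mul_comm,
            Nat.choose_symm_add]
      _ ≤ _ := h3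
  have h2 : (1 + x) ^ (b + N) ≤ Real.exp N := by
    calc (1 + x) ^ (b + N) ≤ (Real.exp x) ^ (b + N) := by
          apply pow_le_pow_left₀ (by positivity)
          linarith [Real.add_one_le_exp x]
      _ = Real.exp ((b + N : ℕ) * x) := by rw [← Real.exp_nat_mul]
      _ = Real.exp N := by
          congr 1
          rw [hx]; push_cast; field_simp
  have h3 : Real.exp (N * (1 + Real.log (((b : ℝ) + N) / N))) = Real.exp N * (x⁻¹) ^ N := by
    rw [mul_add, Real.exp_add, mul_one]
    congr 1
    rw [Real.exp_nat_mul, Real.exp_log (by positivity)]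
    congr 1
    rw [hx, inv_div]
  rw [h3]
  calc ((b + N).choose N : ℝ) = ((b + N).choose N : ℝ) * x ^ N * (x⁻¹) ^ N := by
        rw [mul_assoc, ← mul_pow, mul_inv_cancel₀ hx0.ne', one_pow, mul_one]
    _ ≤ Real.exp N * (x⁻¹) ^ N :=
        mul_le_mul_of_nonneg_right (h1.trans h2) (by positivity)

/-! ### changing one block along a cut -/

section change
variable {α : Type*}

/-- changing the block `x` to `x'`; `(xs₁, ys₁)`, `(xs₂, ys₂)` are the parts before and after -/
lemma L_change_ge (xs₁ xs₂ ys₁ ys₂ : List (List α)) (x x' v : List α)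
    (h1 : xs₁.length = ys₁.length)
    (h : L (xs₁ ++ x :: xs₂).flatten (ys₁ ++ v :: ys₂).flatten =
      sumL (xs₁ ++ x :: xs₂) (ys₁ ++ v :: ys₂)) :
    L (xs₁ ++ x :: xs₂).flatten (ys₁ ++ v :: ys₂).flatten + L x' v ≤
      L (xs₁ ++ x' :: xs₂).flatten (ys₁ ++ v :: ys₂).flatten + L x v := by
  have h2 := L_flatten_ge (xs₁ ++ x' :: xs₂) (ys₁ ++ v :: ys₂)
  rw [h, sumL_append h1, sumL_cons]
  rw [sumL_append h1, sumL_cons] at h2
  omega

end change

end Pool.Agent.LCST
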